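import Pool.Agent.Helper70.SK.Stmts
import Pool.Agent.Helper70.SK.Lib

set_option autoImplicit false

namespace Pool.Agent.Helper70.SK

open Finset Pool.Agent.Helper70.DK

theorem g1a_chain {Ω α1 α2 α3 α4 α5 α6 α7 α8 α9 α10 α11 : Type} (S : Finset Ω) (T : Ω → α1)
    (T' : Ω → α2) (T1 : Ω → α3) (T1' : Ω → α4) (c : Ω → α5) (b : Ω → α6) (q0 : Ω → α7)
    (q1 : Ω → α8) (P : Ω → α9) (P' : Ω → α10) (Rb : Ω → α11) :
    cent S (fun ω => (T1 ω, T1' ω, q1 ω)) (fun ω => (c ω, b ω)) -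
      cent S (fun ω => (T ω, T' ω, q0 ω)) (fun ω => (c ω, b ω)) ≤
    cent S P (fun ω => (T ω, q0 ω, c ω)) + cent S Rb (fun ω => (T ω, T' ω, q0 ω, c ω)) +
      cent S T1 (fun ω => (P ω, T ω, c ω)) + cent S T1' (fun ω => (P' ω, T' ω, c ω)) +
      cent S P' (fun ω => (P ω, Rb ω)) + cent S q1 (fun ω => (P ω, T1 ω, T ω, c ω)) := by
  have a1 := cent_change_left S (fun ω => (T1 ω, T1' ω, q1 ω)) (fun ω => (T ω, T' ω, q0 ω))
    (fun ω => (c ω, b ω))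
  have a2 := cent_mono_right S (fun ω => (T1 ω, T1' ω, q1 ω))
    (fun ω => (T ω, T' ω, q0 ω, c ω)) (fun ω => ((T ω, T' ω, q0 ω), (c ω, b ω)))
    (fun x _ y _ h => by simp only [Prod.mk.injEq] at h ⊢; tauto)
  have a3 := cent_le_add S (fun ω => (T1 ω, T1' ω, q1 ω)) (fun ω => (T ω, T' ω, q0 ω, c ω)) P
  have a4 := cent_mono_right S P (fun ω => (T ω, q0 ω, c ω)) (fun ω => (T ω, T' ω, q0 ω, c ω))
    (fun x _ y _ h => by simp only [Prod.mk.injEq] at h ⊢; tauto)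
  have a5 := cent_chain S T1 (fun ω => (T1' ω, q1 ω))
    (fun ω => (P ω, (T ω, T' ω, q0 ω, c ω)))
  have a6 := cent_pair_le S T1' q1 (fun ω => (T1 ω, (P ω, (T ω, T' ω, q0 ω, c ω))))
  have a7 := cent_mono_right S T1 (fun ω => (P ω, T ω, c ω))
    (fun ω => (P ω, (T ω, T' ω, q0 ω, c ω)))
    (fun x _ y _ h => by simp only [Prod.mk.injEq] at h ⊢; tauto)
  have a8 := cent_mono_right S q1 (fun ω => (P ω, T1 ω, T ω, c ω))
    (fun ω => (T1 ω, (P ω, (T ω, T' ω, q0 ω, c ω))))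
    (fun x _ y _ h => by simp only [Prod.mk.injEq] at h ⊢; tauto)
  have a9 := cent_mono_right S T1' (fun ω => (P ω, (T ω, T' ω, q0 ω, c ω)))
    (fun ω => (T1 ω, (P ω, (T ω, T' ω, q0 ω, c ω))))
    (fun x _ y _ h => by simp only [Prod.mk.injEq] at h ⊢; tauto)
  have a10 := cent_le_add S T1' (fun ω => (P ω, (T ω, T' ω, q0 ω, c ω))) Rb
  have a11 := cent_mono_right S Rb (fun ω => (T ω, T' ω, q0 ω, c ω))
    (fun ω => (P ω, (T ω, T' ω, q0 ω, c ω)))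
    (fun x _ y _ h => by simp only [Prod.mk.injEq] at h ⊢; tauto)
  have a12 := cent_change_right S T1' (fun ω => (Rb ω, (P ω, (T ω, T' ω, q0 ω, c ω))))
    (fun ω => (P' ω, T' ω, c ω))
  have a13 := cent_mono_left S (fun ω => (P' ω, T' ω, c ω)) P'
    (fun ω => (Rb ω, (P ω, (T ω, T' ω, q0 ω, c ω))))
    (fun x _ y _ h h' => by simp only [Prod.mk.injEq] at h' ⊢; tauto)
  have a14 := cent_mono_right S P' (fun ω => (P ω, Rb ω))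
    (fun ω => (Rb ω, (P ω, (T ω, T' ω, q0 ω, c ω))))
    (fun x _ y _ h => by simp only [Prod.mk.injEq] at h ⊢; tauto)
  linarith

theorem g1a_ind (hIND : ST_IND) {m q : ℕ} (σ : Sy m q) (B j : ℕ) (rep : ℕ → ℕ) {α : Type}
    (f : ℕ → (Fin m → ℤ) → α) (hU : (σ.U B).Nonempty) :
    cent (σ.Om B) (fun z => f (rep z.1.1) z.1.2) (fun z => (σ.tr B j z.1.2, rep z.1.1)) =
    cent (σ.Om B) (fun z => f (rep z.1.1) z.1.2) (fun z => (σ.tr B j z.1.2, z.1.1, z.2)) := by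
  have h1 := (hIND.1 (ℕ × (Fin m → ℤ)) (Fin q → ℤ) α ((Fin m → ℤ) × ℕ) (σ.GX B) (σ.U B)
    (fun z => f (rep z.1) z.2) (fun z => (σ.tr B j z.2, rep z.1)) hU).1
  have h2 := hIND.2.2.1 ℕ (Fin m → ℤ) α ℕ (Fin m → ℤ) σ.G (σ.X B) rep (σ.tr B j) f
  have h3 := (hIND.1 (ℕ × (Fin m → ℤ)) (Fin q → ℤ) α ((Fin m → ℤ) × ℕ) (σ.GX B) (σ.U B)
    (fun z => f (rep z.1) z.2) (fun z => (σ.tr B j z.2, z.1)) hU).2
  have h4 := cent_congr_right (σ.Om B) (fun z => f (rep z.1.1) z.1.2)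
    (fun z => (σ.tr B j z.1.2, z.1.1, z.2)) (fun z => ((σ.tr B j z.1.2, z.1.1), z.2))
    (fun x _ y _ => by simp only [Prod.mk.injEq]; tauto)
  exact h1.trans (h2.trans (h3.symm.trans h4))

theorem g1a_pa (hP : ST_PARA) {m q : ℕ} (σ : Sy m q) (B k K : ℕ) {α β : Type}
    (f : BS m q → α) (g : BS m q → β) :
    cent (σ.Pa B) (fun ω => f (ω.1.1, ω.2)) (fun ω => g (ω.1.1, ω.2)) = cent (σ.Om B) f g ∧
    cent (σ.Pa B) (fun ω => f ((ω.1.1.1, σ.x1 B k K ω), ω.2))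
      (fun ω => g ((ω.1.1.1, σ.x1 B k K ω), ω.2)) = cent (σ.Om B) f g := by
  obtain ⟨-, h2, h3, -, -⟩ := hP m q B k K σ
  have a1 := h2 (α × β) (fun z => (f z, g z))
  have a2 := h2 β g
  have a3 := h3 (α × β) (fun z => (f z, g z))
  have a4 := h3 β g
  exact ⟨congrArg₂ (fun a b : ℝ => a - b) a1 a2, congrArg₂ (fun a b : ℝ => a - b) a3 a4⟩

theorem g1a_err {m q : ℕ} (hGEO : ST_GEO) (B : ℕ) (R κ D C : ℝ) (σ : Sy m q) (hB : 2 ≤ B)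
    (hR : 0 ≤ R) (hD : 0 ≤ D) (hσ : σ.Ok B R κ D C) (Q j l N1 : ℕ) (rep : ℕ → ℕ)
    (hrep : σ.Rep B Q rep) (hQ : Q ≤ σ.n) (hN1 : (m : ℝ) * (R + 1 + D) ≤ 2 ^ N1) (hjl : j ≤ l)
    (hl : l ≤ σ.n) (hlQ : l + N1 ≤ j + Q) :
    ∀ γ ∈ σ.G, ∀ x ∈ σ.X B, ∀ r, |(σ.Y B γ x r - σ.Y B γ (σ.co B j x) r) -
      (σ.Y B (rep γ) x r - σ.Y B (rep γ) (σ.co B j x) r)| ≤ (B : ℤ) ^ σ.e l := by
  intro γ hγ x hx r
  obtain ⟨-, g2, g3, -⟩ := hGEO m q B R κ D C σ hB hR hD hσ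
  have hx' := g3 j (hjl.trans hl) x hx
  have h1 := g2 Q rep hQ hrep γ hγ j (hjl.trans hl) x hx _ hx'.1 hx'.2.1.symm r
  have hB' : (2 : ℝ) ≤ B := by exact_mod_cast hB
  have h2 : (m : ℝ) * (R + 1 + D) * (B : ℝ) ^ σ.e j / (B : ℝ) ^ Q ≤ (B : ℝ) ^ σ.e l := by
    rw [div_le_iff₀ (by positivity), ← pow_add]
    have h3 : σ.e l + Q = N1 + σ.e j + (j + Q - (l + N1)) := by
      unfold Sy.e
      omega
    rw [h3, pow_add, pow_add]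
    have h4 : (1 : ℝ) ≤ (B : ℝ) ^ (j + Q - (l + N1)) := one_le_pow₀ (by linarith)
    have h5 : (2 : ℝ) ^ N1 ≤ (B : ℝ) ^ N1 := pow_le_pow_left₀ (by norm_num) hB' _
    calc (m : ℝ) * (R + 1 + D) * (B : ℝ) ^ σ.e j ≤ (B : ℝ) ^ N1 * (B : ℝ) ^ σ.e j :=
          mul_le_mul_of_nonneg_right (hN1.trans h5) (by positivity)
      _ = (B : ℝ) ^ N1 * (B : ℝ) ^ σ.e j * 1 := (mul_one _).symm
      _ ≤ _ := mul_le_mul_of_nonneg_left h4 (by positivity)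
  have h3 := h1.trans h2
  exact_mod_cast h3

theorem g1a_det {m q : ℕ} (hDET : ST_DET) (B : ℕ) (σ : Sy m q) (hB : 2 ≤ B) (j l : ℕ)
    (rep : ℕ → ℕ)
    (herr : ∀ γ ∈ σ.G, ∀ x ∈ σ.X B, ∀ r, |(σ.Y B γ x r - σ.Y B γ (σ.co B j x) r) -
      (σ.Y B (rep γ) x r - σ.Y B (rep γ) (σ.co B j x) r)| ≤ (B : ℤ) ^ σ.e l) :
    cent (σ.Om B) (σ.C B l) (fun z => (cl B (σ.e l) (σ.yc B j (rep z.1.1) z.1.2),
      (σ.tr B j z.1.2, z.1.1, z.2))) ≤ q * Real.log (2 * (1 : ℕ) + 3) ∧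
    cent (σ.Om B) (fun z => cl B (σ.e l) (σ.yc B j (rep z.1.1) z.1.2))
      (fun z => (σ.C B l z, (σ.tr B j z.1.2, z.1.1, z.2))) ≤ q * Real.log (2 * (1 : ℕ) + 3) := by
  have hs : (0 : ℤ) < (B : ℤ) ^ σ.e l := by positivity
  constructor
  · refine hDET.1 (BS m q) ((Fin m → ℤ) × ℕ × (Fin q → ℤ)) q 1 (σ.Om B)
      (fun z r => (σ.Y B z.1.1 z.1.2 + z.2) r) (fun z r => σ.yc B j (rep z.1.1) z.1.2 r)
      (fun z => (σ.tr B j z.1.2, z.1.1, z.2))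
      (fun ζ r => σ.Y B ζ.2.1 (fun c => (B : ℤ) ^ (σ.n - j) * ζ.1 c) r + ζ.2.2 r)
      ((B : ℤ) ^ σ.e l) hs ?_
    intro z hz r
    have hz1 := mem_product.1 (mem_product.1 hz).1
    have h1 := herr z.1.1 hz1.1 z.1.2 hz1.2 r
    show |(σ.Y B z.1.1 z.1.2 r + z.2 r) - (σ.Y B (rep z.1.1) z.1.2 r -
      σ.Y B (rep z.1.1) (σ.co B j z.1.2) r) - (σ.Y B z.1.1 (σ.co B j z.1.2) r + z.2 r)| ≤ _
    rw [show (σ.Y B z.1.1 z.1.2 r + z.2 r) - (σ.Y B (rep z.1.1) z.1.2 r -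
      σ.Y B (rep z.1.1) (σ.co B j z.1.2) r) - (σ.Y B z.1.1 (σ.co B j z.1.2) r + z.2 r) =
      (σ.Y B z.1.1 z.1.2 r - σ.Y B z.1.1 (σ.co B j z.1.2) r) -
      (σ.Y B (rep z.1.1) z.1.2 r - σ.Y B (rep z.1.1) (σ.co B j z.1.2) r) by ring]
    push_cast
    rw [one_mul]
    exact h1
  · refine hDET.1 (BS m q) ((Fin m → ℤ) × ℕ × (Fin q → ℤ)) q 1 (σ.Om B)
      (fun z r => σ.yc B j (rep z.1.1) z.1.2 r) (fun z r => (σ.Y B z.1.1 z.1.2 + z.2) r)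
      (fun z => (σ.tr B j z.1.2, z.1.1, z.2))
      (fun ζ r => -(σ.Y B ζ.2.1 (fun c => (B : ℤ) ^ (σ.n - j) * ζ.1 c) r + ζ.2.2 r))
      ((B : ℤ) ^ σ.e l) hs ?_
    intro z hz r
    have hz1 := mem_product.1 (mem_product.1 hz).1
    have h1 := herr z.1.1 hz1.1 z.1.2 hz1.2 r
    show |(σ.Y B (rep z.1.1) z.1.2 r - σ.Y B (rep z.1.1) (σ.co B j z.1.2) r) -
      (σ.Y B z.1.1 z.1.2 r + z.2 r) - -(σ.Y B z.1.1 (σ.co B j z.1.2) r + z.2 r)| ≤ _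
    rw [show (σ.Y B (rep z.1.1) z.1.2 r - σ.Y B (rep z.1.1) (σ.co B j z.1.2) r) -
      (σ.Y B z.1.1 z.1.2 r + z.2 r) - -(σ.Y B z.1.1 (σ.co B j z.1.2) r + z.2 r) =
      -((σ.Y B z.1.1 z.1.2 r - σ.Y B z.1.1 (σ.co B j z.1.2) r) -
      (σ.Y B (rep z.1.1) z.1.2 r - σ.Y B (rep z.1.1) (σ.co B j z.1.2) r)) by ring, abs_neg]
    push_cast
    rw [one_mul]
    exact h1

theorem st_G1A (hDET : ST_DET) (hIND : ST_IND) (hGEO : ST_GEO) (hPARA : ST_PARA) : ST_G1A := by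
  intro m q B R κ D hB hR hD
  have hB' : (2 : ℝ) ≤ B := by exact_mod_cast hB
  obtain ⟨N1, hN1⟩ : ∃ N1 : ℕ, (m : ℝ) * (R + 1 + D) ≤ 2 ^ N1 := by
    obtain ⟨N, hN⟩ := pow_unbounded_of_one_lt ((m : ℝ) * (R + 1 + D))
      (by norm_num : (1 : ℝ) < 2)
    exact ⟨N, hN.le⟩
  have hl5 : 0 ≤ Real.log (2 * (1 : ℕ) + 3) := Real.log_nonneg (by norm_num)
  have hl11 : 0 ≤ Real.log (2 * (4 : ℕ) + 3) := Real.log_nonneg (by norm_num)
  have hl3 : 0 ≤ Real.log (2 * (0 : ℕ) + 3) := Real.log_nonneg (by norm_num)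
  refine ⟨4 * (q * Real.log (2 * (1 : ℕ) + 3)) + q * Real.log (2 * (4 : ℕ) + 3) +
    q * Real.log (2 * (0 : ℕ) + 3) + N1, by positivity, ?_⟩
  intro σ C Q k K g d j rep hσ hrep hkj hjK hK hQ hgd
  have hQN : g + d + N1 ≤ Q := by
    have h1 : (0 : ℝ) ≤ 4 * (q * Real.log (2 * (1 : ℕ) + 3)) + q * Real.log (2 * (4 : ℕ) + 3) +
      q * Real.log (2 * (0 : ℕ) + 3) := by positivity
    have h2 : (g : ℝ) + d + N1 ≤ Q := by linarith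
    exact_mod_cast h2
  obtain ⟨-, -, g3, g4⟩ := hGEO m q B R κ D C σ hB hR hD hσ
  have hjn : j ≤ σ.n := by omega
  have hln : j + g + d ≤ σ.n := by omega
  have hUne : (σ.U B).Nonempty := by
    unfold Sy.U gr
    rw [Fintype.piFinset_nonempty]
    intro _
    refine ⟨0, mem_Ico.2 ⟨le_refl _, ?_⟩⟩
    exact_mod_cast (by positivity : 0 < B ^ (σ.n + σ.a1 + σ.a3))
  have err1 := g1a_err hGEO B R κ D C σ hB hR hD hσ Q j (j + g + d) N1 rep hrep hQ hN1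
    (by omega) hln (by omega)
  have err0 := g1a_err hGEO B R κ D C σ hB hR hD hσ Q j (j + g) N1 rep hrep hQ hN1
    (by omega) (by omega) (by omega)
  obtain ⟨d1, d1'⟩ := g1a_det hDET B σ hB j (j + g + d) rep err1
  obtain ⟨d0, d0'⟩ := g1a_det hDET B σ hB j (j + g) rep err0
  have hch := g1a_chain (σ.Pa B) (fun ω => σ.tr B j ω.1.1.2)
    (fun ω => σ.tr B j (σ.x1 B k K ω)) (fun ω => σ.tr B (j + d) ω.1.1.2)
    (fun ω => σ.tr B (j + d) (σ.x1 B k K ω)) (fun ω => rep ω.1.1.1)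
    (fun ω => σ.tr B k ω.1.1.2)
    (fun ω => cl B (σ.e (j + g)) (σ.yc B j (rep ω.1.1.1) ω.1.1.2))
    (fun ω => cl B (σ.e (j + d + g)) (σ.yc B (j + d) (rep ω.1.1.1) ω.1.1.2))
    (fun ω => cl B (σ.e (j + g + d)) (σ.yc B j (rep ω.1.1.1) ω.1.1.2))
    (fun ω => cl B (σ.e (j + g + d)) (σ.yc B j (rep ω.1.1.1) (σ.x1 B k K ω)))
    (fun ω => cl B (σ.e (j + g + d)) (σ.Rd B j ω.1.1.1 ω.1.1.2 (σ.x1 B k K ω)))
  -- (b)
  have hb : cent (σ.Pa B) (fun ω => cl B (σ.e (j + d + g)) (σ.yc B (j + d) (rep ω.1.1.1) ω.1.1.2))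
      (fun ω => (cl B (σ.e (j + g + d)) (σ.yc B j (rep ω.1.1.1) ω.1.1.2),
        σ.tr B (j + d) ω.1.1.2, σ.tr B j ω.1.1.2, rep ω.1.1.1)) ≤
      q * Real.log (2 * (0 : ℕ) + 3) := by
    have hjdg : j + d + g = j + g + d := by omega
    rw [hjdg]
    refine hDET.1 (PS m q) ((Fin m → ℤ) × (Fin m → ℤ) × ℕ) q 0 (σ.Pa B)
      (fun ω r => σ.yc B (j + d) (rep ω.1.1.1) ω.1.1.2 r)
      (fun ω r => σ.yc B j (rep ω.1.1.1) ω.1.1.2 r)
      (fun ω => (σ.tr B (j + d) ω.1.1.2, σ.tr B j ω.1.1.2, rep ω.1.1.1))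
      (fun ζ r => σ.Y B ζ.2.2 (fun c => (B : ℤ) ^ (σ.n - j) * ζ.2.1 c) r -
        σ.Y B ζ.2.2 (fun c => (B : ℤ) ^ (σ.n - (j + d)) * ζ.1 c) r)
      ((B : ℤ) ^ σ.e (j + g + d)) (by positivity) ?_
    intro ω _ r
    show |(σ.Y B (rep ω.1.1.1) ω.1.1.2 r - σ.Y B (rep ω.1.1.1) (σ.co B (j + d) ω.1.1.2) r) -
      (σ.Y B (rep ω.1.1.1) ω.1.1.2 r - σ.Y B (rep ω.1.1.1) (σ.co B j ω.1.1.2) r) -
      (σ.Y B (rep ω.1.1.1) (σ.co B j ω.1.1.2) r -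
        σ.Y B (rep ω.1.1.1) (σ.co B (j + d) ω.1.1.2) r)| ≤ _
    rw [show (σ.Y B (rep ω.1.1.1) ω.1.1.2 r - σ.Y B (rep ω.1.1.1) (σ.co B (j + d) ω.1.1.2) r) -
      (σ.Y B (rep ω.1.1.1) ω.1.1.2 r - σ.Y B (rep ω.1.1.1) (σ.co B j ω.1.1.2) r) -
      (σ.Y B (rep ω.1.1.1) (σ.co B j ω.1.1.2) r -
        σ.Y B (rep ω.1.1.1) (σ.co B (j + d) ω.1.1.2) r) = 0 by ring, abs_zero]
    push_cast
    rw [zero_mul]
  -- (c)
  have hc : cent (σ.Pa B) (fun ω => cl B (σ.e (j + g + d)) (σ.yc B j (rep ω.1.1.1) ω.1.1.2))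
      (fun ω => (σ.tr B j ω.1.1.2, cl B (σ.e (j + g)) (σ.yc B j (rep ω.1.1.1) ω.1.1.2),
        rep ω.1.1.1)) ≤ σ.hh B j (j + g + d) - σ.hh B j (j + g) +
        2 * (q * Real.log (2 * (1 : ℕ) + 3)) := by
    have t1 := (g1a_pa hPARA σ B k K
      (fun z => cl B (σ.e (j + g + d)) (σ.yc B j (rep z.1.1) z.1.2))
      (fun z => (σ.tr B j z.1.2, cl B (σ.e (j + g)) (σ.yc B j (rep z.1.1) z.1.2),
        rep z.1.1))).1
    have t2 : cent (σ.Om B) (fun z => cl B (σ.e (j + g + d)) (σ.yc B j (rep z.1.1) z.1.2))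
        (fun z => (σ.tr B j z.1.2, cl B (σ.e (j + g)) (σ.yc B j (rep z.1.1) z.1.2),
          rep z.1.1)) =
        cent (σ.Om B) (fun z => cl B (σ.e (j + g + d)) (σ.yc B j (rep z.1.1) z.1.2))
          (fun z => (σ.tr B j z.1.2, rep z.1.1)) -
        cent (σ.Om B) (fun z => cl B (σ.e (j + g)) (σ.yc B j (rep z.1.1) z.1.2))
          (fun z => (σ.tr B j z.1.2, rep z.1.1)) := by
      have u1 := cent_chain (σ.Om B)
        (fun z => cl B (σ.e (j + g)) (σ.yc B j (rep z.1.1) z.1.2))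
        (fun z => cl B (σ.e (j + g + d)) (σ.yc B j (rep z.1.1) z.1.2))
        (fun z => (σ.tr B j z.1.2, rep z.1.1))
      have u2 := cent_congr_right (σ.Om B)
        (fun z => cl B (σ.e (j + g + d)) (σ.yc B j (rep z.1.1) z.1.2))
        (fun z => (σ.tr B j z.1.2, cl B (σ.e (j + g)) (σ.yc B j (rep z.1.1) z.1.2),
          rep z.1.1))
        (fun z => (cl B (σ.e (j + g)) (σ.yc B j (rep z.1.1) z.1.2),
          (σ.tr B j z.1.2, rep z.1.1)))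
        (fun x _ y _ => by simp only [Prod.mk.injEq]; tauto)
      have u3 := cent_congr_left (σ.Om B)
        (fun z => (cl B (σ.e (j + g)) (σ.yc B j (rep z.1.1) z.1.2),
          cl B (σ.e (j + g + d)) (σ.yc B j (rep z.1.1) z.1.2)))
        (fun z => cl B (σ.e (j + g + d)) (σ.yc B j (rep z.1.1) z.1.2))
        (fun z => (σ.tr B j z.1.2, rep z.1.1)) (by
          intro x _ y _ _
          simp only [Prod.mk.injEq]
          refine ⟨fun h => ⟨?_, h⟩, fun h => h.2⟩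
          have hcl : ∀ y : Fin q → ℤ, cl B (σ.e (j + g)) y =
              fun i => cl B (σ.e (j + g + d)) y i / (B : ℤ) ^ d := by
            intro y
            funext i
            show y i / (B : ℤ) ^ σ.e (j + g) = y i / (B : ℤ) ^ σ.e (j + g + d) / (B : ℤ) ^ d
            have he : σ.e (j + g) = σ.e (j + g + d) + d := by
              unfold Sy.e
              omega
            rw [Int.ediv_ediv_of_nonneg (by positivity), ← pow_add, he]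
          rw [hcl, hcl, h])
      rw [u2] at u1
      rw [u3] at u1
      linarith
    have t3 := g1a_ind hIND σ B j rep (fun c x => cl B (σ.e (j + g + d)) (σ.yc B j c x)) hUne
    have t4 := g1a_ind hIND σ B j rep (fun c x => cl B (σ.e (j + g)) (σ.yc B j c x)) hUne
    -- `P` versus `C`
    have t5 : cent (σ.Om B) (fun z => cl B (σ.e (j + g + d)) (σ.yc B j (rep z.1.1) z.1.2))
        (fun z => (σ.tr B j z.1.2, z.1.1, z.2)) ≤ σ.hh B j (j + g + d) +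
        q * Real.log (2 * (1 : ℕ) + 3) := by
      have := cent_change_left (σ.Om B)
        (fun z => cl B (σ.e (j + g + d)) (σ.yc B j (rep z.1.1) z.1.2)) (σ.C B (j + g + d))
        (fun z => (σ.tr B j z.1.2, z.1.1, z.2))
      unfold Sy.hh
      linarith
    have t6 : σ.hh B j (j + g) - q * Real.log (2 * (1 : ℕ) + 3) ≤
        cent (σ.Om B) (fun z => cl B (σ.e (j + g)) (σ.yc B j (rep z.1.1) z.1.2))
        (fun z => (σ.tr B j z.1.2, z.1.1, z.2)) := by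
      have := cent_change_left (σ.Om B) (σ.C B (j + g))
        (fun z => cl B (σ.e (j + g)) (σ.yc B j (rep z.1.1) z.1.2))
        (fun z => (σ.tr B j z.1.2, z.1.1, z.2))
      unfold Sy.hh
      linarith
    have t1' : cent (σ.Pa B)
        (fun ω => cl B (σ.e (j + g + d)) (σ.yc B j (rep ω.1.1.1) ω.1.1.2))
        (fun ω => (σ.tr B j ω.1.1.2, cl B (σ.e (j + g)) (σ.yc B j (rep ω.1.1.1) ω.1.1.2),
        rep ω.1.1.1)) = _ := t1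
    rw [t1', t2]
    linarith
  -- (d)
  have hdOm : cent (σ.Om B) (fun z => σ.tr B (j + d) z.1.2)
      (fun z => (cl B (σ.e (j + g + d)) (σ.yc B j (rep z.1.1) z.1.2), σ.tr B j z.1.2,
        rep z.1.1)) ≤
      cent (σ.Om B) (fun ω => σ.tr B (j + d) ω.1.2)
        (fun ω => (σ.C B (j + g + d) ω, σ.tr B j ω.1.2, ω.1.1, ω.2)) +
      q * Real.log (2 * (1 : ℕ) + 3) := by
    have u1 := cent_chain (σ.Om B)
      (fun z => cl B (σ.e (j + g + d)) (σ.yc B j (rep z.1.1) z.1.2))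
      (fun z => σ.tr B (j + d) z.1.2) (fun z => (σ.tr B j z.1.2, rep z.1.1))
    have u2 := cent_chain (σ.Om B)
      (fun z => cl B (σ.e (j + g + d)) (σ.yc B j (rep z.1.1) z.1.2))
      (fun z => σ.tr B (j + d) z.1.2) (fun z => (σ.tr B j z.1.2, z.1.1, z.2))
    have u3 := g1a_ind hIND σ B j rep (fun c x => cl B (σ.e (j + g + d)) (σ.yc B j c x)) hUne
    have u4 := g1a_ind hIND σ B j rep
      (fun c x => (cl B (σ.e (j + g + d)) (σ.yc B j c x), σ.tr B (j + d) x)) hUne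
    have u5 := cent_change_right (σ.Om B) (fun z => σ.tr B (j + d) z.1.2)
      (fun z => (cl B (σ.e (j + g + d)) (σ.yc B j (rep z.1.1) z.1.2),
        (σ.tr B j z.1.2, z.1.1, z.2)))
      (fun ω => (σ.C B (j + g + d) ω, σ.tr B j ω.1.2, ω.1.1, ω.2))
    have u6 := cent_mono_left (σ.Om B)
      (fun ω => (σ.C B (j + g + d) ω, σ.tr B j ω.1.2, ω.1.1, ω.2)) (σ.C B (j + g + d))
      (fun z => (cl B (σ.e (j + g + d)) (σ.yc B j (rep z.1.1) z.1.2),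
        (σ.tr B j z.1.2, z.1.1, z.2)))
      (fun x _ y _ h h' => by simp only [Prod.mk.injEq] at h' ⊢; tauto)
    linarith
  have hd := (g1a_pa hPARA σ B k K (fun z => σ.tr B (j + d) z.1.2)
    (fun z => (cl B (σ.e (j + g + d)) (σ.yc B j (rep z.1.1) z.1.2), σ.tr B j z.1.2,
      rep z.1.1))).1
  have he := (g1a_pa hPARA σ B k K (fun z => σ.tr B (j + d) z.1.2)
    (fun z => (cl B (σ.e (j + g + d)) (σ.yc B j (rep z.1.1) z.1.2), σ.tr B j z.1.2,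
      rep z.1.1))).2
  -- (e)
  have hf : cent (σ.Pa B)
      (fun ω => cl B (σ.e (j + g + d)) (σ.yc B j (rep ω.1.1.1) (σ.x1 B k K ω)))
      (fun ω => (cl B (σ.e (j + g + d)) (σ.yc B j (rep ω.1.1.1) ω.1.1.2),
        cl B (σ.e (j + g + d)) (σ.Rd B j ω.1.1.1 ω.1.1.2 (σ.x1 B k K ω)))) ≤
      q * Real.log (2 * (4 : ℕ) + 3) := by
    have hs : (0 : ℤ) < (B : ℤ) ^ σ.e (j + g + d) := by positivity
    refine hDET.1 (PS m q) (Fin q → ℤ) q 4 (σ.Pa B)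
      (fun ω r => σ.yc B j (rep ω.1.1.1) (σ.x1 B k K ω) r)
      (fun ω r => σ.yc B j (rep ω.1.1.1) ω.1.1.2 r)
      (fun ω => cl B (σ.e (j + g + d)) (σ.Rd B j ω.1.1.1 ω.1.1.2 (σ.x1 B k K ω)))
      (fun ζ r => -((B : ℤ) ^ σ.e (j + g + d) * ζ r))
      ((B : ℤ) ^ σ.e (j + g + d)) hs ?_
    intro ω hω r
    obtain ⟨hx1, hff⟩ := (hPARA m q B k K σ).1 ω hω
    have hω1 := mem_product.1 (mem_product.1 (mem_product.1 hω).1).1
    have e1 := abs_le.1 (err1 ω.1.1.1 hω1.1 ω.1.1.2 hω1.2 r)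
    have e2 := abs_le.1 (err1 ω.1.1.1 hω1.1 (σ.x1 B k K ω) hx1 r)
    have hcell : σ.Y B ω.1.1.1 (σ.x1 B k K ω) r / (B : ℤ) ^ σ.e K =
        σ.Y B ω.1.1.1 ω.1.1.2 r / (B : ℤ) ^ σ.e K := by
      unfold Sy.ff at hff
      rw [Prod.ext_iff, Prod.ext_iff] at hff
      exact congrFun hff.2.2 r
    have hKs : (B : ℤ) ^ σ.e K ≤ (B : ℤ) ^ σ.e (j + g + d) :=
      pow_le_pow_right₀ (by exact_mod_cast (by omega : 1 ≤ B)) (by unfold Sy.e; omega)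
    have hYY : |σ.Y B ω.1.1.1 (σ.x1 B k K ω) r - σ.Y B ω.1.1.1 ω.1.1.2 r| ≤
        (B : ℤ) ^ σ.e (j + g + d) := by
      have hsK : (0 : ℤ) < (B : ℤ) ^ σ.e K := by positivity
      have h1 := Int.emod_add_mul_ediv (σ.Y B ω.1.1.1 (σ.x1 B k K ω) r) ((B : ℤ) ^ σ.e K)
      have h2 := Int.emod_add_mul_ediv (σ.Y B ω.1.1.1 ω.1.1.2 r) ((B : ℤ) ^ σ.e K)
      have h3 := Int.emod_nonneg (σ.Y B ω.1.1.1 (σ.x1 B k K ω) r) hsK.ne'
      have h4 := Int.emod_nonneg (σ.Y B ω.1.1.1 ω.1.1.2 r) hsK.ne'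
      have h5 := Int.emod_lt_of_pos (σ.Y B ω.1.1.1 (σ.x1 B k K ω) r) hsK
      have h6 := Int.emod_lt_of_pos (σ.Y B ω.1.1.1 ω.1.1.2 r) hsK
      rw [hcell] at h1
      rw [abs_le]
      constructor <;> linarith
    have e3 := abs_le.1 hYY
    show |(σ.Y B (rep ω.1.1.1) (σ.x1 B k K ω) r -
      σ.Y B (rep ω.1.1.1) (σ.co B j (σ.x1 B k K ω)) r) -
      (σ.Y B (rep ω.1.1.1) ω.1.1.2 r - σ.Y B (rep ω.1.1.1) (σ.co B j ω.1.1.2) r) -
      -((B : ℤ) ^ σ.e (j + g + d) * ((σ.Y B ω.1.1.1 (σ.co B j (σ.x1 B k K ω)) r -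
        σ.Y B ω.1.1.1 (σ.co B j ω.1.1.2) r) / (B : ℤ) ^ σ.e (j + g + d)))| ≤ _
    have h1 := Int.emod_add_mul_ediv (σ.Y B ω.1.1.1 (σ.co B j (σ.x1 B k K ω)) r -
        σ.Y B ω.1.1.1 (σ.co B j ω.1.1.2) r) ((B : ℤ) ^ σ.e (j + g + d))
    have h2 := Int.emod_nonneg (σ.Y B ω.1.1.1 (σ.co B j (σ.x1 B k K ω)) r -
        σ.Y B ω.1.1.1 (σ.co B j ω.1.1.2) r) hs.ne'
    have h3 := Int.emod_lt_of_pos (σ.Y B ω.1.1.1 (σ.co B j (σ.x1 B k K ω)) r -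
        σ.Y B ω.1.1.1 (σ.co B j ω.1.1.2) r) hs
    push_cast
    rw [abs_le]
    constructor <;> linarith [e1.1, e1.2, e2.1, e2.2, e3.1, e3.2]
  have hd' : cent (σ.Pa B) (fun ω => σ.tr B (j + d) ω.1.1.2)
      (fun ω => (cl B (σ.e (j + g + d)) (σ.yc B j (rep ω.1.1.1) ω.1.1.2), σ.tr B j ω.1.1.2,
        rep ω.1.1.1)) = _ := hd
  have he' : cent (σ.Pa B) (fun ω => σ.tr B (j + d) (σ.x1 B k K ω))
      (fun ω => (cl B (σ.e (j + g + d)) (σ.yc B j (rep ω.1.1.1) (σ.x1 B k K ω)),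
        σ.tr B j (σ.x1 B k K ω), rep ω.1.1.1)) = _ := he
  have hN0 : (0 : ℝ) ≤ N1 := Nat.cast_nonneg _
  unfold Sy.HR
  rw [hd', he'] at hch
  linarith

end Pool.Agent.Helper70.SK
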