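import Pool.Agent.Helper70.SK.Stmts
import Pool.Agent.Helper70.SK.Lib

set_option autoImplicit false

namespace Pool.Agent.Helper70.SK

open Finset Pool.Agent.Helper70.DK

theorem s2a_pk {Ω : Type} (F : Finset Ω) (j : ℕ) (d : Ω) (hF : F.Nonempty) : pk F j d ∈ F := by
  unfold pk
  have h : j % F.card < F.toList.length := by
    rw [length_toList]
    exact Nat.mod_lt _ hF.card_pos
  rw [List.getD_eq_getElem _ _ h]
  exact mem_toList.1 (List.getElem_mem h)

theorem s2a_fib {Ω β : Type} (S : Finset Ω) (g : Ω → β) (c : β) (ω : Ω) :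
    ω ∈ fib S g c ↔ ω ∈ S ∧ g ω = c := by
  classical
  unfold fib
  rw [mem_filter]

theorem s2a_xt {m q : ℕ} (σ : Sy m q) (B k K p : ℕ) (ω : (ℕ × (Fin m → ℤ)) × (Fin p → ℕ))
    (hω : ω.1 ∈ σ.GX B) (i : Fin (p + 1)) :
    σ.xt B k K p ω i ∈ σ.X B ∧ σ.tr B k (σ.xt B k K p ω i) = σ.tr B k ω.1.2 ∧
      cl B (σ.e K) (σ.Y B ω.1.1 (σ.xt B k K p ω i)) = cl B (σ.e K) (σ.Y B ω.1.1 ω.1.2) := by
  refine Fin.cases ?_ (fun i => ?_) i
  · unfold Sy.xt
    rw [Fin.cons_zero]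
    exact ⟨(mem_product.1 hω).2, rfl, rfl⟩
  · unfold Sy.xt
    rw [Fin.cons_succ]
    have h1 : σ.pa B k K ω.1 (ω.2 i) ∈ fib (σ.GX B) (σ.ff B k K) (σ.ff B k K ω.1) :=
      s2a_pk _ _ _ ⟨ω.1, (s2a_fib _ _ _ _).2 ⟨hω, rfl⟩⟩
    rw [s2a_fib] at h1
    obtain ⟨h2, h3⟩ := h1
    unfold Sy.ff at h3
    rw [Prod.ext_iff, Prod.ext_iff] at h3
    obtain ⟨h4, h5, h6⟩ := h3
    simp only at h4 h5 h6
    refine ⟨(mem_product.1 h2).2, h5, ?_⟩
    rw [h4] at h6
    exact h6

theorem s2a_sep (F : Finset ℕ) (t : ℕ → ℤ) (r : ℤ) (Mx : ℝ)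
    (hM : ∀ t0 : ℤ, ((F.filter (fun γ => |t γ - t0| ≤ r)).card : ℝ) ≤ Mx) (p : ℕ)
    (hF : p * Mx < F.card) : ∀ l ≤ p + 1, ∃ g : Fin l → ℕ, (∀ i, g i ∈ F) ∧
      ∀ i j, i ≠ j → r < |t (g i) - t (g j)| := by
  have hM0 : 0 ≤ Mx := le_trans (Nat.cast_nonneg _) (hM 0)
  intro l
  induction l with
  | zero => intro _; exact ⟨fun i => i.elim0, fun i => i.elim0, fun i => i.elim0⟩
  | succ l ih =>
    intro hl
    obtain ⟨g, hg, hsep⟩ := ih (by omega)
    have hex : ∃ x ∈ F, ∀ i, r < |t x - t (g i)| := by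
      by_contra hcon
      push Not at hcon
      have hsub : F ⊆ (univ : Finset (Fin l)).biUnion
          (fun i => F.filter (fun γ => |t γ - t (g i)| ≤ r)) := by
        intro x hx
        obtain ⟨i, hi⟩ := hcon x hx
        exact mem_biUnion.2 ⟨i, mem_univ _, mem_filter.2 ⟨hx, hi⟩⟩
      have h1 : (F.card : ℝ) ≤ ∑ i : Fin l, ((F.filter (fun γ => |t γ - t (g i)| ≤ r)).card : ℝ) := by
        have := (card_le_card hsub).trans card_biUnion_le
        exact_mod_cast this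
      have h2 : ∑ i : Fin l, ((F.filter (fun γ => |t γ - t (g i)| ≤ r)).card : ℝ) ≤ l * Mx := by
        calc _ ≤ ∑ _i : Fin l, Mx := sum_le_sum fun i _ => hM _
          _ = l * Mx := by rw [sum_const, card_univ, Fintype.card_fin, nsmul_eq_mul]
      have h3 : (l : ℝ) * Mx ≤ p * Mx :=
        mul_le_mul_of_nonneg_right (by exact_mod_cast (by omega : l ≤ p)) hM0
      linarith
    obtain ⟨x, hx, hxs⟩ := hex
    refine ⟨Fin.cons x g, ?_, ?_⟩
    · intro i
      refine Fin.cases ?_ (fun i => ?_) i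
      · rw [Fin.cons_zero]; exact hx
      · rw [Fin.cons_succ]; exact hg i
    · intro i j
      refine Fin.cases ?_ (fun i => ?_) i <;> refine Fin.cases ?_ (fun j => ?_) j
      · intro h; exact absurd rfl h
      · intro _
        rw [Fin.cons_zero, Fin.cons_succ]
        exact hxs j
      · intro _
        rw [Fin.cons_zero, Fin.cons_succ, abs_sub_comm]
        exact hxs i
      · intro h
        rw [Fin.cons_succ, Fin.cons_succ]
        exact hsep i j fun hh => h (by rw [hh])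

theorem s2a_div (a b s : ℤ) (hs : 0 < s) (h : a / s = b / s) : |a - b| < s := by
  have h1 := Int.emod_add_mul_ediv a s
  have h2 := Int.emod_add_mul_ediv b s
  have h3 := Int.emod_nonneg a hs.ne'
  have h4 := Int.emod_nonneg b hs.ne'
  have h5 := Int.emod_lt_of_pos a hs
  have h6 := Int.emod_lt_of_pos b hs
  rw [h] at h1
  rw [abs_lt]
  constructor <;> linarith

theorem s2a_num (B W p : ℕ) (C : ℝ) (hB : 2 ≤ B) (hp : 1 ≤ p) (_hC : 0 ≤ C)
    (hW : 8 * p ^ 2 * C * B / Real.log B ≤ W) :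
    p * C < Real.exp (-(Real.log B * W / (8 * p))) * (B : ℝ) ^ (W / (4 * p)) := by
  have hB' : (2 : ℝ) ≤ B := by exact_mod_cast hB
  have hL : 0 < Real.log B := Real.log_pos (by linarith)
  have hp' : (1 : ℝ) ≤ p := by exact_mod_cast hp
  have h1 : (W : ℝ) / (4 * p) - 1 ≤ ((W / (4 * p) : ℕ) : ℝ) := by
    have h2 : W < (4 * p) * (W / (4 * p) + 1) := Nat.lt_mul_div_succ W (by omega)
    have h3 : (W : ℝ) < (4 * p) * (((W / (4 * p) : ℕ) : ℝ) + 1) := by exact_mod_cast h2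
    have h4 : (W : ℝ) / (4 * p) < ((W / (4 * p) : ℕ) : ℝ) + 1 := by
      rw [div_lt_iff₀ (by positivity)]
      linarith
    linarith
  have h2 : (B : ℝ) ^ (W / (4 * p)) = Real.exp (((W / (4 * p) : ℕ) : ℝ) * Real.log B) := by
    rw [Real.exp_nat_mul, Real.exp_log (by linarith)]
  rw [h2, ← Real.exp_add]
  have h3 : Real.log B * W / (8 * p) - Real.log B ≤
      -(Real.log B * W / (8 * p)) + ((W / (4 * p) : ℕ) : ℝ) * Real.log B := by
    have h4 := mul_le_mul_of_nonneg_right h1 hL.le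
    have h5 : ((W : ℝ) / (4 * p) - 1) * Real.log B =
        2 * (Real.log B * W / (8 * p)) - Real.log B := by
      field_simp
      ring
    linarith
  have h4 : Real.exp (Real.log B * W / (8 * p) - Real.log B) =
      Real.exp (Real.log B * W / (8 * p)) / B := by
    rw [Real.exp_sub, Real.exp_log (by linarith)]
  have h5 : p * C * B ≤ Real.log B * W / (8 * p) := by
    rw [div_le_iff₀ hL] at hW
    rw [le_div_iff₀ (by positivity)]
    calc (p : ℝ) * C * B * (8 * p) = 8 * p ^ 2 * C * B := by ring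
      _ ≤ W * Real.log B := hW
      _ = _ := mul_comm _ _
  have h6 : Real.log B * W / (8 * p) < Real.exp (Real.log B * W / (8 * p)) := by
    have := Real.add_one_le_exp (Real.log B * W / (8 * p))
    linarith
  calc (p : ℝ) * C = p * C * B / B := by field_simp
    _ < Real.exp (Real.log B * W / (8 * p)) / B :=
        div_lt_div_of_pos_right (lt_of_le_of_lt h5 h6) (by linarith)
    _ = Real.exp (Real.log B * W / (8 * p) - Real.log B) := h4.symm
    _ ≤ _ := Real.exp_le_exp.2 h3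

theorem st_S2A (hT : ST_TUP) (hS : ST_SUPP) (hM : ST_MINR) (hGEO : ST_GEO) (hIND : ST_IND) :
    ST_S2A := by
  classical
  intro m q δ2 hq hqm hδ
  obtain ⟨p, hp⟩ : ∃ p, p = m - q + 1 := ⟨_, rfl⟩
  rw [← hp]
  have hp1 : 1 ≤ p := by omega
  have hp' : (1 : ℝ) ≤ p := by exact_mod_cast hp1
  refine ⟨δ2 / (64 * p ^ 2), by positivity, ?_⟩
  intro B R κ D C hB hR hκ hD hC
  have hB' : (2 : ℝ) ≤ B := by exact_mod_cast hB
  have hL : 0 < Real.log B := Real.log_pos (by linarith)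
  obtain ⟨c0, hc0, hTUP⟩ := hT m q p B R κ D hp1 hB hR hD
  obtain ⟨M0, hM0⟩ : ∃ M0 : ℝ, M0 = m * D * (R + 1) := ⟨_, rfl⟩
  have hM00 : 0 ≤ M0 := by rw [hM0]; positivity
  obtain ⟨c, hc, hMINR⟩ := hM m q p B R κ D (2 * M0 + 1) hq hqm hp hB hR hκ hD (by linarith)
  obtain ⟨W0, hW0⟩ := exists_nat_ge (16 * p ^ 2 * c0 / (Real.log B * δ2) +
    8 * p ^ 2 * C * B / Real.log B + 4 * (c + 1) + 1)
  refine ⟨W0, ?_⟩
  intro W hW σ hσ k hk hTW
  have hWr : (W0 : ℝ) ≤ W := by exact_mod_cast hW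
  have n1 : 0 ≤ 16 * p ^ 2 * c0 / (Real.log B * δ2) := by positivity
  have n2 : 0 ≤ 8 * p ^ 2 * C * B / Real.log B := by positivity
  have w1 : 16 * p ^ 2 * c0 / (Real.log B * δ2) ≤ W := by linarith
  have w2 : 8 * p ^ 2 * C * B / Real.log B ≤ W := by linarith
  have w3 : 4 * (c + 1) ≤ W := by linarith
  have w4 : (1 : ℝ) ≤ W := by linarith
  have hKn : k + W ≤ σ.n := hk
  have hkn : k ≤ σ.n := by omega
  obtain ⟨g1, -, g3, g4⟩ := hGEO m q B R κ D C σ hB hR hD hσ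
  rw [← hM0] at g1
  have hGne := hσ.ne
  have hXne : (σ.X B).Nonempty := by
    unfold Sy.X gr
    rw [Fintype.piFinset_nonempty]
    intro _
    refine ⟨0, mem_Ico.2 ⟨le_refl _, ?_⟩⟩
    exact_mod_cast (by positivity : 0 < B ^ σ.n)
  have hPne : (Fintype.piFinset (fun _ : Fin p => range (σ.N0 B))).Nonempty := by
    rw [Fintype.piFinset_nonempty]
    intro _
    exact ⟨0, mem_range.2 (Nat.factorial_pos _)⟩
  have hPt : (σ.Pt B p).Nonempty := by
    unfold Sy.Pt Sy.GX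
    exact (hGne.product hXne).product hPne
  -- the information
  have hlog : cent (σ.Pt B p) (fun ω => ω.1.1) (fun ω => σ.tr B k ω.1.2) =
      Real.log σ.G.card := by
    have h1 := (hIND.1 (ℕ × (Fin m → ℤ)) (Fin p → ℕ) ℕ (Fin m → ℤ) (σ.GX B)
      (Fintype.piFinset (fun _ : Fin p => range (σ.N0 B))) (fun z => z.1)
      (fun z => σ.tr B k z.2) hPne).1
    have h2 := hIND.2.2.2 ℕ (Fin m → ℤ) (Fin m → ℤ) σ.G (σ.X B) (fun x => σ.tr B k x) hGne hXne
    exact h1.trans h2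
  have hinfo : Real.log σ.G.card - cent (σ.Pt B p) (fun ω => ω.1.1)
      (fun ω => ((fun i => σ.tr B (k + W) (σ.xt B k (k + W) p ω i)), σ.tr B k ω.1.2)) ≤
      p * (σ.TW B k (k + W) + c0) := by
    have h1 := hTUP σ C hσ k (k + W) (by omega) hKn
    have h2 := cent_chain (σ.Pt B p) (fun ω i => σ.tr B (k + W) (σ.xt B k (k + W) p ω i))
      (fun ω => ω.1.1) (fun ω => σ.tr B k ω.1.2)
    have h3 := cent_chain (σ.Pt B p) (fun ω => ω.1.1)
      (fun ω i => σ.tr B (k + W) (σ.xt B k (k + W) p ω i)) (fun ω => σ.tr B k ω.1.2)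
    have h4 := cent_congr_left (σ.Pt B p)
      (fun ω => ((fun i => σ.tr B (k + W) (σ.xt B k (k + W) p ω i)), ω.1.1))
      (fun ω => (ω.1.1, (fun i => σ.tr B (k + W) (σ.xt B k (k + W) p ω i))))
      (fun ω => σ.tr B k ω.1.2) (by
        intro x _ y _ _
        simp only [Prod.ext_iff]
        tauto)
    rw [hlog] at h3
    linarith
  -- bad points
  obtain ⟨D0, hD0⟩ : ∃ D0, D0 = Real.log B * W / (8 * p) := ⟨_, rfl⟩
  have hD0p : 0 < D0 := by rw [hD0]; positivity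
  have hsupp := hS _ _ (σ.Pt B p) (fun ω => ω.1.1)
    (fun ω => ((fun i => σ.tr B (k + W) (σ.xt B k (k + W) p ω i)), σ.tr B k ω.1.2)) σ.G D0 hPt
    (fun ω hω => (mem_product.1 (mem_product.1 hω).1).1) hD0p
  have hnum := s2a_num B W p C hB hp1 hC w2
  rw [← hD0] at hnum
  have hkey : ∀ ω ∈ σ.Pt B p, Real.exp (-D0) * σ.G.card ≤
      (((fib (σ.Pt B p) (fun ω => ((fun i => σ.tr B (k + W) (σ.xt B k (k + W) p ω i)),
        σ.tr B k ω.1.2)) ((fun i => σ.tr B (k + W) (σ.xt B k (k + W) p ω i)),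
        σ.tr B k ω.1.2)).image (fun ω => ω.1.1)).card : ℝ) → σ.Gt B k (k + W) p ω := by
    intro ω hω hbig
    obtain ⟨F, hF⟩ : ∃ F, F = (fib (σ.Pt B p)
      (fun ω => ((fun i => σ.tr B (k + W) (σ.xt B k (k + W) p ω i)),
        σ.tr B k ω.1.2)) ((fun i => σ.tr B (k + W) (σ.xt B k (k + W) p ω i)),
        σ.tr B k ω.1.2)).image (fun ω => ω.1.1) := ⟨_, rfl⟩
    rw [← hF] at hbig
    have hFm : ∀ γ ∈ F, ∃ ω' ∈ σ.Pt B p, (∀ i, σ.tr B (k + W) (σ.xt B k (k + W) p ω' i) =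
        σ.tr B (k + W) (σ.xt B k (k + W) p ω i)) ∧ ω'.1.1 = γ := by
      intro γ hγ
      rw [hF, mem_image] at hγ
      obtain ⟨ω', hω', he⟩ := hγ
      rw [s2a_fib] at hω'
      refine ⟨ω', hω'.1, fun i => ?_, he⟩
      exact congrFun (Prod.ext_iff.1 hω'.2).1 i
    have hFG : F ⊆ σ.G := by
      intro γ hγ
      obtain ⟨ω', hω', -, he⟩ := hFm γ hγ
      rw [← he]
      exact (mem_product.1 (mem_product.1 hω').1).1
    obtain ⟨j0, hj0⟩ : ∃ j0, j0 = W / (4 * p) := ⟨_, rfl⟩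
    rw [← hj0] at hnum
    have hj0W : j0 ≤ W := by rw [hj0]; exact Nat.div_le_self _ _
    have hj0n : j0 ≤ σ.n := by omega
    have hBj : (0 : ℝ) < (B : ℝ) ^ j0 := by positivity
    have hGc : (0 : ℝ) < σ.G.card := by exact_mod_cast hGne.card_pos
    obtain ⟨γ, hγF, hγs⟩ := s2a_sep F σ.t ((B : ℤ) ^ (σ.a3 - j0))
      (C * σ.G.card / (B : ℝ) ^ j0) (by
        intro t0
        rw [le_div_iff₀ hBj]
        refine le_trans (mul_le_mul_of_nonneg_right ?_ hBj.le)
          (hσ.fr t0 j0 (hj0n.trans hσ.n3))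
        exact_mod_cast card_le_card (filter_subset_filter _ hFG)) p (by
        refine lt_of_lt_of_le ?_ hbig
        calc (p : ℝ) * (C * σ.G.card / (B : ℝ) ^ j0) = (p * C) * σ.G.card / (B : ℝ) ^ j0 := by
              ring
          _ < (Real.exp (-D0) * (B : ℝ) ^ j0) * σ.G.card / (B : ℝ) ^ j0 :=
              div_lt_div_of_pos_right (mul_lt_mul_of_pos_right hnum hGc) hBj
          _ = Real.exp (-D0) * σ.G.card := by field_simp) (p + 1) (le_refl _)
    have hω1 : ω.1 ∈ σ.GX B := (mem_product.1 hω).1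
    have hdet := hMINR σ C hσ k W j0 hKn hj0n
      (fun i => σ.co B (k + W) (σ.xt B k (k + W) p ω i)) γ
      (by
        have htr : ∀ i, σ.tr B k (σ.co B (k + W) (σ.xt B k (k + W) p ω i)) =
            σ.tr B k ω.1.2 := by
          intro i
          have h1 := s2a_xt σ B k (k + W) p ω hω1 i
          have h2 := g3 (k + W) hKn _ h1.1
          rw [g4 k (k + W) (by omega) hKn, h2.2.1, ← g4 k (k + W) (by omega) hKn, h1.2.1]
        intro i
        refine ⟨(g3 (k + W) hKn _ (s2a_xt σ B k (k + W) p ω hω1 i).1).1, ?_⟩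
        rw [htr i, htr 0])
      (fun l => hFG (hγF l)) (fun l l' hl => (hγs l l' hl).le)
      (by
        intro l i r
        obtain ⟨ω', hω', hX, hγ'⟩ := hFm (γ l) (hγF l)
        have hω'1 : ω'.1 ∈ σ.GX B := (mem_product.1 hω').1
        have hco : ∀ i, σ.co B (k + W) (σ.xt B k (k + W) p ω i) =
            σ.co B (k + W) (σ.xt B k (k + W) p ω' i) := by
          intro i
          unfold Sy.co
          rw [hX i]
        rw [hco i, hco 0]
        have hd : ∀ i, |(σ.Y B (γ l) (σ.co B (k + W) (σ.xt B k (k + W) p ω' i)) r : ℝ) -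
            (σ.Y B (γ l) (σ.xt B k (k + W) p ω' i) r : ℝ)| ≤ M0 * (B : ℝ) ^ σ.e (k + W) := by
          intro i
          have h1 := (s2a_xt σ B k (k + W) p ω' hω'1 i).1
          have h2 := g3 (k + W) hKn _ h1
          exact g1 (γ l) (hFG (hγF l)) (k + W) hKn _ h2.1 _ h1 h2.2.1 r
        have hcl : |(σ.Y B (γ l) (σ.xt B k (k + W) p ω' i) r : ℝ) -
            (σ.Y B (γ l) (σ.xt B k (k + W) p ω' 0) r : ℝ)| ≤ (B : ℝ) ^ σ.e (k + W) := by
          have h1 := (s2a_xt σ B k (k + W) p ω' hω'1 i).2.2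
          have h2 := (s2a_xt σ B k (k + W) p ω' hω'1 0).2.2
          rw [hγ'] at h1 h2
          have h3 := congrFun (h1.trans h2.symm) r
          have h4 := s2a_div _ _ _ (by positivity : (0 : ℤ) < (B : ℤ) ^ σ.e (k + W)) h3
          have h5 : ((|σ.Y B (γ l) (σ.xt B k (k + W) p ω' i) r -
            σ.Y B (γ l) (σ.xt B k (k + W) p ω' 0) r| : ℤ) : ℝ) ≤
            (((B : ℤ) ^ σ.e (k + W) : ℤ) : ℝ) := by exact_mod_cast h4.le
          push_cast at h5
          exact h5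
        have a1 := abs_le.1 (hd i)
        have a2 := abs_le.1 (hd 0)
        have a3 := abs_le.1 hcl
        rw [abs_le]
        constructor <;> linarith [a1.1, a1.2, a2.1, a2.2, a3.1, a3.2])
    intro I
    have hdI := hdet I
    obtain ⟨dZ, hdZ⟩ : ∃ dZ : ℤ, dZ = (Matrix.of fun i j : Fin p =>
      σ.co B (k + W) (σ.xt B k (k + W) p ω i.succ) (I j) -
      σ.co B (k + W) (σ.xt B k (k + W) p ω 0) (I j)).det := ⟨_, rfl⟩
    have hcast : (Matrix.of fun i j : Fin p =>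
        ((σ.co B (k + W) (σ.xt B k (k + W) p ω i.succ) (I j) -
      σ.co B (k + W) (σ.xt B k (k + W) p ω 0) (I j) : ℤ) : ℝ)).det = (dZ : ℝ) := by
      rw [hdZ]
      exact ((Int.castRingHom ℝ).map_det _).symm
    rw [hcast] at hdI
    rw [← hdZ]
    have hWk : (k + W - k) / 2 = W / 2 := by rw [Nat.add_sub_cancel_left]
    rw [hWk]
    have hj4 : p * j0 ≤ W / 4 := by
      rw [hj0, Nat.le_div_iff_mul_le (by norm_num)]
      calc p * (W / (4 * p)) * 4 = (4 * p) * (W / (4 * p)) := by ring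
        _ ≤ W := Nat.mul_div_le _ _
    have hcB : c ≤ (B : ℝ) ^ (W / 4) := by
      have h1 : (W : ℝ) / 4 - 1 ≤ ((W / 4 : ℕ) : ℝ) := by
        have h2 : W < 4 * (W / 4 + 1) := Nat.lt_mul_div_succ W (by norm_num)
        have h3 : (W : ℝ) < 4 * (((W / 4 : ℕ) : ℝ) + 1) := by exact_mod_cast h2
        linarith
      have h2 : ((W / 4 : ℕ) : ℝ) ≤ (2 : ℝ) ^ (W / 4) := by
        exact_mod_cast (Nat.lt_two_pow_self (n := W / 4)).le
      have h3 : (2 : ℝ) ^ (W / 4) ≤ (B : ℝ) ^ (W / 4) := pow_le_pow_left₀ (by norm_num) hB' _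
      linarith
    have hfin : |(dZ : ℝ)| * (B : ℝ) ^ (W / 2) ≤ (B : ℝ) ^ ((σ.n - k) * p) := by
      have hBW : (0 : ℝ) < (B : ℝ) ^ (W - W / 2) := by positivity
      refine le_of_mul_le_mul_right ?_ hBW
      calc |(dZ : ℝ)| * (B : ℝ) ^ (W / 2) * (B : ℝ) ^ (W - W / 2) = |(dZ : ℝ)| * (B : ℝ) ^ W := by
            rw [mul_assoc, ← pow_add]
            congr 2
            omega
        _ ≤ c * (B : ℝ) ^ ((σ.n - k) * p) * (B : ℝ) ^ (p * j0) := hdI
        _ ≤ (B : ℝ) ^ (W / 4) * (B : ℝ) ^ ((σ.n - k) * p) * (B : ℝ) ^ (W / 4) := by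
            refine mul_le_mul (mul_le_mul_of_nonneg_right hcB (by positivity))
              (pow_le_pow_right₀ (by linarith) hj4) (by positivity) (by positivity)
        _ = (B : ℝ) ^ ((σ.n - k) * p) * (B : ℝ) ^ (W / 4 + W / 4) := by rw [pow_add]; ring
        _ ≤ (B : ℝ) ^ ((σ.n - k) * p) * (B : ℝ) ^ (W - W / 2) :=
            mul_le_mul_of_nonneg_left (pow_le_pow_right₀ (by linarith) (by omega))
              (by positivity)
    exact_mod_cast hfin
  have hsub : (σ.Pt B p).filter (fun ω => ¬ σ.Gt B k (k + W) p ω) ⊆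
      (σ.Pt B p).filter (fun ω => (((fib (σ.Pt B p)
        (fun ω => ((fun i => σ.tr B (k + W) (σ.xt B k (k + W) p ω i)), σ.tr B k ω.1.2))
        ((fun i => σ.tr B (k + W) (σ.xt B k (k + W) p ω i)), σ.tr B k ω.1.2)).image
        (fun ω => ω.1.1)).card : ℝ) < Real.exp (-D0) * σ.G.card) := by
    intro ω hω
    rw [mem_filter] at hω ⊢
    refine ⟨hω.1, ?_⟩
    by_contra hcon
    push Not at hcon
    exact hω.2 (hkey ω hω.1 hcon)
  have hcard : (((σ.Pt B p).filter (fun ω => ¬ σ.Gt B k (k + W) p ω)).card : ℝ) * D0 ≤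
      (σ.Pt B p).card * (p * (δ2 / (64 * p ^ 2) * W * Real.log B + c0)) := by
    calc _ ≤ (((σ.Pt B p).filter (fun ω => (((fib (σ.Pt B p)
        (fun ω => ((fun i => σ.tr B (k + W) (σ.xt B k (k + W) p ω i)), σ.tr B k ω.1.2))
        ((fun i => σ.tr B (k + W) (σ.xt B k (k + W) p ω i)), σ.tr B k ω.1.2)).image
        (fun ω => ω.1.1)).card : ℝ) < Real.exp (-D0) * σ.G.card)).card : ℝ) * D0 :=
          mul_le_mul_of_nonneg_right (by exact_mod_cast card_le_card hsub) hD0p.le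
      _ ≤ _ := hsupp
      _ ≤ (σ.Pt B p).card * (p * (σ.TW B k (k + W) + c0)) :=
          mul_le_mul_of_nonneg_left hinfo (Nat.cast_nonneg _)
      _ ≤ _ := by
          refine mul_le_mul_of_nonneg_left ?_ (Nat.cast_nonneg _)
          refine mul_le_mul_of_nonneg_left ?_ (by linarith)
          linarith
  have hle : p * (δ2 / (64 * p ^ 2) * W * Real.log B + c0) ≤ δ2 * D0 := by
    rw [hD0]
    rw [div_le_iff₀ (by positivity)] at w1
    have e1 : δ2 * (Real.log B * W / (8 * p)) - p * (δ2 / (64 * p ^ 2) * W * Real.log B + c0) =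
        (7 * (W * (Real.log B * δ2)) - 64 * p ^ 2 * c0) / (64 * p) := by
      field_simp
      ring
    have e2 : 0 ≤ (7 * (W * (Real.log B * δ2)) - 64 * p ^ 2 * c0) / (64 * p) := by
      refine div_nonneg ?_ (by positivity)
      have : 0 ≤ (p : ℝ) ^ 2 * c0 := by positivity
      linarith
    linarith
  have hfin := hcard.trans (mul_le_mul_of_nonneg_left hle (Nat.cast_nonneg _))
  refine le_of_mul_le_mul_right ?_ hD0p
  calc _ ≤ ((σ.Pt B p).card : ℝ) * (δ2 * D0) := hfin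
    _ = _ := by ring

end Pool.Agent.Helper70.SK
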